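import Pool.Agent.Helper29.OT.St

set_option autoImplicit false

namespace Pool.Agent.Helper62.OT

open Finset Pool.Agent.Helper14.FEM Pool.Agent.Helper3.EMK
open Pool.Agent.Helper29.TK Pool.Agent.Helper29.OT

theorem CQ_n (k n s : ℕ) (hk : 2 ≤ k) (hs : 1 ≤ s) (hn : k * s ≤ n)
    (h : (n.choose k : ℝ) - (n - s + 1).choose k + 1000 * k ^ 5 / n * n.choose k ≤
      (k * s - 1).choose k) : 1000 * (k : ℝ) ^ 5 ≤ n := by
  have hk1 : 1 * s ≤ k * s := Nat.mul_le_mul_right s (by omega)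
  have hn1 : 1 ≤ n := by omega
  have hkn : k ≤ n := le_trans (Nat.le_mul_of_pos_right k hs) hn
  have h1 : ((n - s + 1).choose k : ℝ) ≤ n.choose k := by
    exact_mod_cast Nat.choose_le_choose k (by omega)
  have h2 : ((k * s - 1).choose k : ℝ) ≤ n.choose k := by
    exact_mod_cast Nat.choose_le_choose k (by omega)
  have h3 : (0 : ℝ) < n.choose k := by exact_mod_cast Nat.choose_pos hkn
  have h4 : 1000 * (k : ℝ) ^ 5 / n * n.choose k ≤ 1 * n.choose k := by linarith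
  have h5 : 1000 * (k : ℝ) ^ 5 / n ≤ 1 := le_of_mul_le_mul_right h4 h3
  have h6 : (0 : ℝ) < n := by exact_mod_cast hn1
  rwa [div_le_one h6] at h5

theorem CQ_pow (k : ℕ) (hk : 2 ≤ k) : (1 : ℝ) ≤ (k : ℝ) ^ 3 := by
  have : (1 : ℝ) ≤ k := by exact_mod_cast (by omega : 1 ≤ k)
  exact one_le_pow₀ this

theorem hCQ (hCO : StCO) (hNA : StNA) (hBT : StBT) (hKB : StKB) (hOP : StOP) (hLT : StLT) :
    StCQ := by
  intro k n s hk hT hs hn x hx hsum h
  obtain ⟨c, P, f, hX, hc34⟩ := hCO k hk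
  have hn1000 := CQ_n k n s hk hs hn h
  have hD0 := (hBT k n s hk hs hn).1 h
  have hkR : (2 : ℝ) ≤ k := by exact_mod_cast hk
  have hsR : (1 : ℝ) ≤ s := by exact_mod_cast hs
  have hk3 := CQ_pow k hk
  have hkpos : (0 : ℝ) < k := by linarith
  have hspos : (0 : ℝ) < s := by linarith
  have hnR : (k : ℝ) * s ≤ n := by exact_mod_cast hn
  have hnpos : (0 : ℝ) < n := lt_of_lt_of_le (mul_pos hkpos hspos) hnR
  have hcpos : 0 < c := lt_trans hkpos hX.hc
  have hk5 : (0 : ℝ) < (k : ℝ) ^ 5 := by positivity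
  -- the quantity D
  obtain ⟨D, hDdef⟩ : ∃ D : ℝ, D = 999 * k ^ 5 / n := ⟨_, rfl⟩
  rw [← hDdef] at hD0
  have hDpos : 0 < D := by rw [hDdef]; positivity
  have hDn : D * n = 999 * k ^ 5 := by rw [hDdef]; field_simp
  -- a
  have ha0 : (0 : ℝ) < (s : ℝ) / n := div_pos hspos hnpos
  have hks1 : (k : ℝ) * s / n ≤ 1 := (div_le_one hnpos).2 hnR
  have hsn : (s : ℝ) ≤ n := by nlinarith only [hnR, hkR, hspos]
  have ha1 : (s : ℝ) / n ≤ 1 := (div_le_one hnpos).2 hsn
  have h1c : 1 / c ≤ (s : ℝ) / n := by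
    apply hNA.2.1 k c P f _ hX ha0 ha1
    rw [← mul_div_assoc]
    linarith
  have hncs : (n : ℝ) ≤ c * s := by
    rw [div_le_div_iff₀ hcpos hnpos] at h1c
    linarith
  have hβc : (n : ℝ) / (k * s) ≤ c / k := by
    rw [div_le_div_iff₀ (mul_pos hkpos hspos) hkpos]
    nlinarith only [hncs, hkpos]
  have hβ1 : 1 ≤ (n : ℝ) / (k * s) := (one_le_div (mul_pos hkpos hspos)).2 hnR
  have hβ34 : ((k : ℝ) - 1) * ((n : ℝ) / (k * s) - 1) * ((n : ℝ) / (k * s)) ^ (k - 1) ≤ 3 / 4 := by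
    refine le_trans ?_ hc34.le
    apply mul_le_mul
    · apply mul_le_mul_of_nonneg_left (by linarith) (by linarith)
    · exact pow_le_pow_left₀ (by linarith) hβc _
    · exact pow_nonneg (by linarith) _
    · apply mul_nonneg (by linarith)
      linarith
  have hβ74 := hNA.2.2.2 k _ hk hβ1 hβ34
  have h4n : 4 * (n : ℝ) ≤ 7 * (k * s) := by
    rw [div_le_iff₀ (mul_pos hkpos hspos)] at hβ74
    linarith
  -- P ≥ 1/2
  have hP2 : 1 / 2 ≤ P := by
    have := hX.hPf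
    have := hX.hPf2
    linarith
  have hf2 : f ≤ 1 / 2 := by
    have := hX.hPf
    have := hX.hPf2
    linarith
  have hkc : (k : ℝ) / c ≤ k * s / n := by
    rw [mul_div_assoc]
    calc (k : ℝ) / c = k * (1 / c) := by ring
      _ ≤ _ := mul_le_mul_of_nonneg_left h1c hkpos.le
  have h12 : 1 / 2 ≤ ((k : ℝ) * s / n) ^ k := by
    refine hP2.trans ?_
    rw [hX.hPc]
    exact pow_le_pow_left₀ (by positivity) hkc k
  have hD12 : D ≤ 1 / 2 := by
    have e1 : ((k : ℝ) * s / n) ^ k ≤ 1 := pow_le_one₀ (by positivity) hks1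
    have e2 : (1 - (s : ℝ) / n) ^ k ≤ f := by
      rw [hX.hfc]
      apply pow_le_pow_left₀ (by linarith)
      have : (c - 1) / c = 1 - 1 / c := by
        field_simp
      rw [this]
      linarith
    linarith
  -- s large
  have hs571 : 571 * (k : ℝ) ^ 4 ≤ s := by
    have e1 : 4 * (1000 * (k : ℝ) ^ 5) ≤ 7 * (k * s) := by linarith
    have e2 : (k : ℝ) * (571 * (k : ℝ) ^ 4) ≤ k * s := by
      have : (k : ℝ) * (571 * (k : ℝ) ^ 4) = 571 * (k : ℝ) ^ 5 := by ring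
      rw [this]
      linarith
    exact le_of_mul_le_mul_left e2 hkpos
  have hk4 : (k : ℝ) ≤ (k : ℝ) ^ 4 := by
    have : (k : ℝ) ^ 4 = k * k ^ 3 := by ring
    rw [this]
    nlinarith only [hk3, hkpos]
  have h100 : 100 * k ≤ s := by
    have : (100 : ℝ) * k ≤ s := by linarith
    exact_mod_cast this
  have hDs : 2 * (k : ℝ) ≤ D * s := by
    have e1 : 2 * (k : ℝ) * n ≤ D * s * n := by
      have : D * s * n = 999 * k ^ 5 * s := by
        calc D * s * n = (D * n) * s := by ring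
          _ = _ := by rw [hDn]
      rw [this]
      have e2 : 2 * (k : ℝ) * n ≤ 2 * k * (7 / 4 * (k * s)) :=
        mul_le_mul_of_nonneg_left (by linarith) (by positivity)
      refine e2.trans ?_
      have e3 : 2 * (k : ℝ) * (7 / 4 * (k * s)) = (7 / 2 * k ^ 2) * s := by ring
      rw [e3]
      apply mul_le_mul_of_nonneg_right _ hspos.le
      have e4 : (k : ℝ) ^ 5 = k ^ 2 * k ^ 3 := by ring
      rw [e4]
      have e5 : (0 : ℝ) ≤ (k : ℝ) ^ 2 := by positivity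
      nlinarith only [e5, hk3]
    exact le_of_mul_le_mul_right e1 hnpos
  -- the optimal cover
  obtain ⟨z, hz0, hzsum, hxz, hzc⟩ := hOP n k (s : ℝ) (by omega) x hx hsum
  rcases le_or_gt (cnt univ z k 1) ((k * s - 1).choose k) with hle | hgt
  · exact hxz.trans hle
  refine hxz.trans ?_
  have hexc := hKB k n s hk hT hs hn z hz0 hzsum D hDpos hD12 hDs h100 h12 hD0 hgt.le
  have hsupp : #{i | z i ≠ 0} < k * s := by
    have e1 : (#{i | z i ≠ 0} : ℝ) < k * s :=
      lt_of_le_of_lt hzc (mul_lt_mul_of_pos_left hzsum hkpos)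
    exact_mod_cast e1
  have hK1 : 1 ≤ 13 * (k : ℝ) ^ 2 / D := by
    rw [one_le_div hDpos]
    nlinarith only [hkR, hD12]
  have hsK : 40 * (k : ℝ) ^ 2 * (13 * (k : ℝ) ^ 2 / D) ≤ s := by
    have e1 : 40 * (k : ℝ) ^ 2 * (13 * (k : ℝ) ^ 2 / D) = 520 * k ^ 4 / D := by ring
    rw [e1, div_le_iff₀ hDpos]
    have e2 : 520 * (k : ℝ) ^ 4 * n ≤ s * D * n := by
      have e3 : (s : ℝ) * D * n = 999 * k ^ 5 * s := by
        calc (s : ℝ) * D * n = (D * n) * s := by ring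
          _ = _ := by rw [hDn]
      rw [e3]
      have e4 : 520 * (k : ℝ) ^ 4 * n ≤ 520 * k ^ 4 * (7 / 4 * (k * s)) :=
        mul_le_mul_of_nonneg_left (by linarith) (by positivity)
      refine e4.trans ?_
      have e5 : 520 * (k : ℝ) ^ 4 * (7 / 4 * (k * s)) = 910 * (k ^ 5 * s) := by ring
      rw [e5]
      have e6 : (0 : ℝ) ≤ (k : ℝ) ^ 5 * s := by positivity
      have e7 : 999 * (k : ℝ) ^ 5 * s = 999 * (k ^ 5 * s) := by ring
      rw [e7]
      linarith only [e6]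
    exact le_of_mul_le_mul_right e2 hnpos
  exact hLT k n s hk hs hn z hz0 hzsum hsupp _ hexc hK1 hsK hβ34

end Pool.Agent.Helper62.OT
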